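import Mathlib
import Pool.Agent.Helper896.FacchiniPart1
import Pool.Agent.Helper896.FacchiniSkew
import Pool.Agent.Helper896.FacchiniOre

/-!
# MP_6b1727_al, Q1 (Facchini): a serial right module with an indecomposable, non-uniserial direct summand

The statement uses the definitions of the problem file literally: right modules (modules over the
opposite ring), uniserial modules, serial modules (isomorphic to a direct sum of uniserial modules),
indecomposable modules, direct summands.
-/

set_option autoImplicit false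
open scoped DirectSum

namespace Pool.Agent.Results.MP_6b1727_al.SerialSummand

/-- the submodules of `U` are totally ordered by inclusion -/
def IsUniserial (S U : Type) [Ring S] [AddCommGroup U] [Module S U] : Prop :=
  ∀ A B : Submodule S U, A ≤ B ∨ B ≤ A

/-- isomorphic to a direct sum of uniserial modules -/
def IsSerial (S M : Type) [Ring S] [AddCommGroup M] [Module S M] : Prop :=
  ∃ (ι : Type) (_ : DecidableEq ι) (U : ι → Type) (_ : ∀ i, AddCommGroup (U i)) (_ : ∀ i, Module S (U i)),
    (∀ i, IsUniserial S (U i)) ∧ Nonempty (M ≃ₗ[S] ⨁ i, U i)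

/-- nonzero, and not the direct sum of two nonzero submodules -/
def IsIndecomposable (S N : Type) [Ring S] [AddCommGroup N] [Module S N] : Prop :=
  Nontrivial N ∧ ∀ A B : Submodule S N, IsCompl A B → A = ⊥ ∨ B = ⊥

theorem left :
    ¬ (∀ (R : Type) [Ring R] (M : Type) [AddCommGroup M] [Module R M],
      (∃ (ι : Type) (U : ι → Submodule R M),
          iSupIndep U ∧ (⨆ i, U i) = ⊤ ∧
          ∀ i, ∀ A B : Submodule R M, A ≤ U i → B ≤ U i → A ≤ B ∨ B ≤ A) →
      ∀ N : Submodule R M,
        (∃ N' : Submodule R M, IsCompl N N') →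
        N ≠ ⊥ →
        (∀ A B : Submodule R M, A ⊔ B = N → A ⊓ B = ⊥ → A = ⊥ ∨ B = ⊥) →
        ∀ A B : Submodule R M, A ≤ N → B ≤ N → A ≤ B ∨ B ≤ A) := by
  obtain ⟨A, _, N, T, g, g', h0, h00, hneg, hadd, hmul, h1, hmono, hcont, hunb, hT,
    ⟨hgg', hg'g, c, hc, hg⟩, hore⟩ := Pool.Agent.Helper896.FacchiniSkew.exists_skew_ring
  obtain ⟨D, _, V, γ, hV, hγ, hcof, hns⟩ :=
    Pool.Agent.Helper896.FacchiniOre.exists_nearly_simple_of A N T g g' h0 h00 hneg hadd hmul h1
      hmono hcont hunb hT hgg' hg'g c hc hg hore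
  exact Pool.Agent.Helper896.Facchini.mainThm hV hγ hcof hns

/-- transport of a submodule-lattice order isomorphism -/
theorem uniserial_sub {S M : Type} [Ring S] [AddCommGroup M] [Module S M] (U : Submodule S M) :
    IsUniserial S U ↔ ∀ A B : Submodule S M, A ≤ U → B ≤ U → A ≤ B ∨ B ≤ A := by
  constructor
  · intro h A B hA hB
    rcases h (A.comap U.subtype) (B.comap U.subtype) with h' | h'
    · left
      have := Submodule.map_mono (f := U.subtype) h'
      rwa [Submodule.map_comap_eq, Submodule.map_comap_eq, Submodule.range_subtype,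
        inf_eq_right.mpr hA, inf_eq_right.mpr hB] at this
    · right
      have := Submodule.map_mono (f := U.subtype) h'
      rwa [Submodule.map_comap_eq, Submodule.map_comap_eq, Submodule.range_subtype,
        inf_eq_right.mpr hA, inf_eq_right.mpr hB] at this
  · intro h A B
    rcases h (A.map U.subtype) (B.map U.subtype) (Submodule.map_subtype_le _ _)
      (Submodule.map_subtype_le _ _) with h' | h'
    · left; exact (Submodule.map_le_map_iff_of_injective U.injective_subtype A B).mp h'
    · right; exact (Submodule.map_le_map_iff_of_injective U.injective_subtype B A).mp h'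

theorem indec_sub {S M : Type} [Ring S] [AddCommGroup M] [Module S M] (N : Submodule S M) (hN : N ≠ ⊥)
    (h : ∀ A B : Submodule S M, A ⊔ B = N → A ⊓ B = ⊥ → A = ⊥ ∨ B = ⊥) : IsIndecomposable S N := by
  refine ⟨(Submodule.nontrivial_iff_ne_bot).mpr hN, fun A B hAB => ?_⟩
  have e1 : A.map N.subtype ⊔ B.map N.subtype = N := by
    rw [← Submodule.map_sup, hAB.sup_eq_top, Submodule.map_top, Submodule.range_subtype]
  have e2 : A.map N.subtype ⊓ B.map N.subtype = ⊥ := by
    rw [← Submodule.map_inf _ N.injective_subtype, hAB.inf_eq_bot, Submodule.map_bot]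
  rcases h _ _ e1 e2 with h' | h'
  · left
    exact Submodule.map_injective_of_injective N.injective_subtype (h'.trans (Submodule.map_bot _).symm)
  · right
    exact Submodule.map_injective_of_injective N.injective_subtype (h'.trans (Submodule.map_bot _).symm)

theorem serial_sub {S M : Type} [Ring S] [AddCommGroup M] [Module S M] (ι : Type) (U : ι → Submodule S M)
    (hi : iSupIndep U) (hs : (⨆ i, U i) = ⊤) (hu : ∀ i, IsUniserial S (U i)) : IsSerial S M := by
  classical
  refine ⟨ι, inferInstance, fun i => U i, inferInstance, inferInstance, hu, ?_⟩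
  have hint : DirectSum.IsInternal U :=
    (DirectSum.isInternal_submodule_iff_iSupIndep_and_iSup_eq_top U).mpr ⟨hi, hs⟩
  exact ⟨(LinearEquiv.ofBijective (DirectSum.coeLinearMap U) hint).symm⟩

/-- **Negative answer to Facchini's question.** There are a ring `R`, a serial right `R`-module `M`
(a module over the opposite ring `Rᵐᵒᵖ`) and a direct summand `N` of `M` (with complement `N'`) that
is indecomposable but not uniserial. -/
theorem result : ∃ (R : Type) (_ : Ring R) (M : Type) (_ : AddCommGroup M) (_ : Module Rᵐᵒᵖ M),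
    IsSerial Rᵐᵒᵖ M ∧ ∃ N N' : Submodule Rᵐᵒᵖ M, IsCompl N N' ∧
      IsIndecomposable Rᵐᵒᵖ N ∧ ¬ IsUniserial Rᵐᵒᵖ N := by
  by_contra hcon
  apply left
  intro R _ M _ _ ⟨ι, U, hi, hs, hu⟩ N ⟨N', hc⟩ hN hind A B hA hB
  by_contra hAB
  apply hcon
  let inst : Module (Rᵐᵒᵖ)ᵐᵒᵖ M := Module.compHom M (RingEquiv.opOp R).symm.toRingHom
  let σ : R →+* (Rᵐᵒᵖ)ᵐᵒᵖ := (RingEquiv.opOp R).toRingHom
  let σ' : (Rᵐᵒᵖ)ᵐᵒᵖ →+* R := (RingEquiv.opOp R).symm.toRingHom
  have : RingHomInvPair σ σ' := RingHomInvPair.of_ringEquiv (RingEquiv.opOp R)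
  have : RingHomInvPair σ' σ := RingHomInvPair.symm _ _
  let e : M ≃ₛₗ[σ] M :=
    { AddEquiv.refl M with
      map_smul' := fun r x => rfl }
  let Φ : Submodule R M ≃o Submodule (Rᵐᵒᵖ)ᵐᵒᵖ M := Submodule.orderIsoMapComap e
  have huni : ∀ W : Submodule R M, (∀ A B : Submodule R M, A ≤ W → B ≤ W → A ≤ B ∨ B ≤ A) ↔
      IsUniserial (Rᵐᵒᵖ)ᵐᵒᵖ (Φ W) := by
    intro W
    rw [uniserial_sub]
    constructor
    · intro h A B hA hB
      rcases h (Φ.symm A) (Φ.symm B) (Φ.symm_apply_le.mpr hA) (Φ.symm_apply_le.mpr hB) with h' | h'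
      · exact Or.inl (Φ.symm.le_iff_le.mp h')
      · exact Or.inr (Φ.symm.le_iff_le.mp h')
    · intro h A B hA hB
      rcases h (Φ A) (Φ B) (Φ.le_iff_le.mpr hA) (Φ.le_iff_le.mpr hB) with h' | h'
      · exact Or.inl (Φ.le_iff_le.mp h')
      · exact Or.inr (Φ.le_iff_le.mp h')
  refine ⟨Rᵐᵒᵖ, inferInstance, M, inferInstance, inst, ?_, Φ N, Φ N', ?_, ?_, ?_⟩
  · refine serial_sub ι (fun i => Φ (U i)) ?_ ?_ fun i => (huni _).mp (hu i)
    · exact hi.map_orderIso Φ
    · rw [← Φ.map_iSup, hs, Φ.map_top]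
  · exact Φ.isCompl hc
  · apply indec_sub
    · intro h
      apply hN
      rw [← Φ.map_bot] at h
      exact Φ.injective h
    · intro A B h1 h2
      rcases hind (Φ.symm A) (Φ.symm B) (by rw [← Φ.symm.map_sup, h1, Φ.symm_apply_apply])
        (by rw [← Φ.symm.map_inf, h2, Φ.symm.map_bot]) with h' | h'
      · left; rw [← Φ.apply_symm_apply A, h', Φ.map_bot]
      · right; rw [← Φ.apply_symm_apply B, h', Φ.map_bot]
  · rw [← huni]
    intro h
    exact hAB (h A B hA hB)

end Pool.Agent.Results.MP_6b1727_al.SerialSummand
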